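import Pool.Agent.W761.CB.Stms
import Pool.Agent.W975.CB.Ms
import Pool.Agent.W366.CB.Lam
import Pool.Agent.W417.CB.Ebc

/-!
# The first measurement
-/

set_option autoImplicit false

open MeasureTheory
open scoped ENNReal

namespace Pool.Agent.W21.CB

open Pool.Agent.W761.CB

/-- Cauchy-Schwarz for sums -/
theorem cs_tsum {A : Type} (p a : A → ℝ≥0∞) :
    ∑' α, (p α) ^ (1 / 2 : ℝ) * (a α) ^ (1 / 2 : ℝ) ≤
      (∑' α, p α) ^ (1 / 2 : ℝ) * (∑' α, a α) ^ (1 / 2 : ℝ) := by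
  let _ : MeasurableSpace A := ⊤
  have hpq : (2 : ℝ).HolderConjugate 2 := Real.HolderConjugate.two_two
  have h := ENNReal.lintegral_mul_le_Lp_mul_Lq (Measure.count : Measure A) hpq
    (f := fun α => (p α) ^ (1 / 2 : ℝ)) (g := fun α => (a α) ^ (1 / 2 : ℝ))
    (measurable_from_top).aemeasurable (measurable_from_top).aemeasurable
  simp only [Pi.mul_apply] at h
  rw [lintegral_count, lintegral_count, lintegral_count] at h
  have h2 : ∀ x : ℝ≥0∞, (x ^ (1 / 2 : ℝ)) ^ (2 : ℝ) = x := by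
    intro x
    rw [← ENNReal.rpow_mul]
    norm_num
  simp only [h2] at h
  exact h

theorem nE_eq {X : Type} [MeasurableSpace X] (ν : Measure X) (F : Multiset X → ℂ) :
    nE ν F = ∫⁻ γ, ‖F (ms γ)‖ₑ ^ (2 : ℝ) ∂(lam ν) := by
  unfold nE
  refine lintegral_congr fun γ => ?_
  rw [← ENNReal.rpow_natCast]
  norm_num

/-- triangle inequality -/
theorem nE_tri {X : Type} [MeasurableSpace X] (ν : Measure X) (F G : Multiset X → ℂ)
    (hF : EB F) (hG : EB G) :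
    (nE ν F) ^ (1 / 2 : ℝ) ≤
      (nE ν G) ^ (1 / 2 : ℝ) + (nE ν fun S => G S - F S) ^ (1 / 2 : ℝ) := by
  rw [nE_eq, nE_eq, nE_eq]
  refine le_trans ?_ (ENNReal.lintegral_Lp_add_le (p := 2) (f := fun γ => ‖G (ms γ)‖ₑ)
    (g := fun γ => ‖G (ms γ) - F (ms γ)‖ₑ) hG.meas.enorm.aemeasurable
    (hG.meas.sub hF.meas).enorm.aemeasurable (by norm_num))
  refine ENNReal.rpow_le_rpow ?_ (by norm_num)
  refine lintegral_mono fun γ => ?_
  refine ENNReal.rpow_le_rpow ?_ (by norm_num)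
  have h : F (ms γ) = G (ms γ) - (G (ms γ) - F (ms γ)) := by ring
  calc ‖F (ms γ)‖ₑ = ‖G (ms γ) - (G (ms γ) - F (ms γ))‖ₑ := by rw [← h]
    _ ≤ _ := enorm_sub_le

theorem nE_smul {X : Type} [MeasurableSpace X] (ν : Measure X) (F : Multiset X → ℂ)
    (hF : EB F) (z : ℂ) : nE ν (fun S => z * F S) = ‖z‖ₑ ^ 2 * nE ν F := by
  unfold nE
  rw [← lintegral_const_mul _ (hF.meas.enorm.pow_const 2)]
  refine lintegral_congr fun γ => ?_
  rw [enorm_mul, mul_pow]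

theorem main : S_BASE := by
  intro X _ ν _ I _ en u ω a b N E Q A _ L c ψ hI hu hω ha hb hN hE hQ hψ hψ1 hψN hψE hψQ hIns hen
  obtain ⟨i0, hi0⟩ := Fintype.card_eq_one_iff.1 hI
  have hM := Pool.Agent.W975.CB.proof_ms
  have hL := Pool.Agent.W366.CB.proof_lam hM
  have hEBC := Pool.Agent.W417.CB.proof_ebc hM hL
  set V : ℝ := (ν Set.univ).toReal with hV
  have hV0 : 0 ≤ V := ENNReal.toReal_nonneg
  have hVe : ENNReal.ofReal V = ν Set.univ := ENNReal.ofReal_toReal (measure_ne_top ν _)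
  have hmeas : ∀ F : Multiset X → ℂ, EB F → Measurable fun x => nE ν (an x F) := by
    intro F hF
    exact (hEBC X ν F F hF hF).2.2.2.2.2.2.2.2.1
  have hR0 : 0 ≤ 1 / ω + V ^ 2 * ω := by positivity
  refine ⟨A, inferInstance, fun α => L α ψ, c, ?_⟩
  have hsum : ∑' α, nuE ν (L α ψ) = ∫⁻ x, ∑' α, nE ν (an x (L α ψ)) ∂ν := by
    unfold nuE
    rw [lintegral_tsum]
    intro α
    exact (hmeas _ (hIns.eb ψ hψ α)).aemeasurable
  refine ⟨fun α => hIns.eb ψ hψ α, ?_, ?_, ?_, ?_, ?_, ?_⟩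
  · rw [hIns.norm ψ hψ, hψ1]
  · rw [hsum, ← hψN]
    exact lintegral_mono fun x => hIns.nlo ψ hψ x
  · rw [hsum]
    calc ∫⁻ x, ∑' α, nE ν (an x (L α ψ)) ∂ν
        ≤ ∫⁻ x, (nE ν (an x ψ) + ENNReal.ofReal ω * nE ν ψ) ∂ν :=
          lintegral_mono fun x => hIns.nhi ψ hψ x
      _ = nuE ν ψ + ENNReal.ofReal ω * ENNReal.ofReal V := by
          rw [lintegral_add_left (hmeas ψ hψ), lintegral_const, hψ1, mul_one, hVe]
          rfl
      _ = ENNReal.ofReal (N + ω * V) := by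
          rw [hψN, ← ENNReal.ofReal_mul hω.le, ← ENNReal.ofReal_add hN (by positivity)]
  · refine (hen ψ hψ).trans ?_
    rw [hψN, hψ1, mul_one, ← ENNReal.ofReal_mul ha, ENNReal.ofReal_add (by positivity) hb,
      ENNReal.ofReal_add hE (by positivity)]
    gcongr
  · intro i
    refine (hIns.amp ψ hψ i).trans ?_
    rw [hψ1, mul_one]
  · -- coherence
    have hu1 : u i0 = fun _ => 1 := funext fun x => hu i0 x
    have hag : ∀ α, EB (ag ν (fun _ => 1) (L α ψ)) := by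
      intro α
      have h := hIns.eb ψ hψ α
      exact (hEBC X ν _ _ h h).2.2.2.1 _ measurable_const ⟨1, fun x => by simp⟩
    have hcs : ∀ α, EB (fun S => c α i0 * L α ψ S) := by
      intro α
      have h := hIns.eb ψ hψ α
      have h2 := (hEBC X ν _ _ h h).2.2.1 (c α i0) 0
      simpa using h2
    have h1 : ∀ α, nE ν (L α ψ) * ∑ i, ‖c α i‖ₑ ≤
        (nE ν (L α ψ)) ^ (1 / 2 : ℝ) * (nE ν (ag ν (fun _ => 1) (L α ψ))) ^ (1 / 2 : ℝ) +
        (nE ν (L α ψ)) ^ (1 / 2 : ℝ) * (dev ν (u i0) (c α i0) (L α ψ)) ^ (1 / 2 : ℝ) := by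
      intro α
      have h2 : ∑ i, ‖c α i‖ₑ = ‖c α i0‖ₑ := by
        rw [Fintype.sum_eq_single i0]
        intro i hi
        exact absurd (hi0 i) hi
      have h3 := nE_tri ν _ _ (hcs α) (hag α)
      rw [nE_smul ν _ (hIns.eb ψ hψ α)] at h3
      have h4 : (‖c α i0‖ₑ ^ 2 * nE ν (L α ψ)) ^ (1 / 2 : ℝ) =
          ‖c α i0‖ₑ * (nE ν (L α ψ)) ^ (1 / 2 : ℝ) := by
        rw [ENNReal.mul_rpow_of_nonneg _ _ (by norm_num), ← ENNReal.rpow_natCast,
          ← ENNReal.rpow_mul]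
        norm_num
      rw [h4] at h3
      have h5 : nE ν (L α ψ) = (nE ν (L α ψ)) ^ (1 / 2 : ℝ) * (nE ν (L α ψ)) ^ (1 / 2 : ℝ) := by
        rw [← ENNReal.rpow_add_of_nonneg _ _ (by norm_num) (by norm_num)]
        norm_num
      rw [h2, ← mul_add]
      calc nE ν (L α ψ) * ‖c α i0‖ₑ
          = (nE ν (L α ψ)) ^ (1 / 2 : ℝ) * (‖c α i0‖ₑ * (nE ν (L α ψ)) ^ (1 / 2 : ℝ)) := by
            nth_rw 1 [h5]
            ring
        _ ≤ _ := by
            refine mul_le_mul_right ?_ _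
            rw [hu1]
            exact h3
    have h6 : (∑' α, nE ν (L α ψ)) = 1 := by rw [hIns.norm ψ hψ, hψ1]
    have h7 : ∑' α, nE ν (ag ν (fun _ => 1) (L α ψ)) ≤ ENNReal.ofReal (Q + ω * V ^ 2) := by
      have h8 := hIns.old ψ hψ (fun _ => 1) 0 measurable_const (fun _ => zero_le_one)
        ⟨1, fun _ => le_rfl⟩
      have h9 : ∀ F : Multiset X → ℂ, dev ν (fun _ => 1) 0 F = nE ν (ag ν (fun _ => 1) F) := by
        intro F
        unfold dev
        congr 1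
        funext S
        rw [zero_mul, sub_zero]
      simp only [h9] at h8
      refine h8.trans ?_
      rw [hψ1, mul_one, ENNReal.ofReal_add hQ (by positivity)]
      refine add_le_add hψQ (le_of_eq ?_)
      congr 3
      simp [hV, Measure.real]
    have h10 : ∑' α, dev ν (u i0) (c α i0) (L α ψ) ≤ ENNReal.ofReal (1 / ω + V ^ 2 * ω) := by
      refine (hIns.amp ψ hψ i0).trans ?_
      rw [hψ1, mul_one]
    have h11 : ∀ (x : ℝ), 0 ≤ x → (ENNReal.ofReal x) ^ (1 / 2 : ℝ) = ENNReal.ofReal (√x) := by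
      intro x hx
      rw [ENNReal.ofReal_rpow_of_nonneg hx (by norm_num), Real.sqrt_eq_rpow]
    calc ∑' α, nE ν (L α ψ) * ∑ i, ‖c α i‖ₑ
        ≤ ∑' α, ((nE ν (L α ψ)) ^ (1 / 2 : ℝ) *
            (nE ν (ag ν (fun _ => 1) (L α ψ))) ^ (1 / 2 : ℝ) +
          (nE ν (L α ψ)) ^ (1 / 2 : ℝ) * (dev ν (u i0) (c α i0) (L α ψ)) ^ (1 / 2 : ℝ)) :=
          ENNReal.tsum_le_tsum h1
      _ ≤ (∑' α, nE ν (L α ψ)) ^ (1 / 2 : ℝ) *
            (∑' α, nE ν (ag ν (fun _ => 1) (L α ψ))) ^ (1 / 2 : ℝ) +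
          (∑' α, nE ν (L α ψ)) ^ (1 / 2 : ℝ) *
            (∑' α, dev ν (u i0) (c α i0) (L α ψ)) ^ (1 / 2 : ℝ) := by
          rw [ENNReal.tsum_add]
          exact add_le_add (cs_tsum _ _) (cs_tsum _ _)
      _ ≤ (ENNReal.ofReal (Q + ω * V ^ 2)) ^ (1 / 2 : ℝ) +
          (ENNReal.ofReal (1 / ω + V ^ 2 * ω)) ^ (1 / 2 : ℝ) := by
          rw [h6, ENNReal.one_rpow, one_mul, one_mul]
          gcongr
      _ = _ := by
          rw [h11 _ (by positivity), h11 _ hR0,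
            ENNReal.ofReal_add (Real.sqrt_nonneg _) (Real.sqrt_nonneg _)]

end Pool.Agent.W21.CB
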